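import Pool.Agent.VMX.StmtsF

/-!
# Squad VMX, block F, row BND: the limit of the centraliser is bounded by `2`
-/

set_option autoImplicit false

open Matrix Filter Topology

namespace Pool.Agent.VMX.H94

open Pool.Agent.VMX Pool.Agent.PFS Pool.Agent.PFJ Pool.Agent.NBT

/-- **Row BND.** -/
theorem bnd : BndStmt := by
  intro n k C Γ hCC w z e g s lam δ η i T p hRN hlam hδ hδ1 hη hηδ hFar hNv hp hpC hT hTh hDom
  have hC : PCone C := hCC.toPCone
  have hw : ∀ m, w m ∈ closure C := fun m => hRN.pes.1.cl m
  have hz' : T p ∈ closure C := hT p hpC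
  have hhz : s • act g (T p) = lam • T p := by rw [← hTh, hp, map_smul]
  have hle : ∀ m, T (∑ m, w m) - T (w m) ∈ closure C := by
    intro m
    rw [← map_sub]
    apply hT
    rw [← Finset.add_sum_erase _ _ (Finset.mem_univ m), add_sub_cancel_left]
    exact hC.cl_sum fun j _ => hw j
  obtain ⟨F, hF⟩ : ∃ F : V n, F = T (∑ m, w m) := ⟨_, rfl⟩
  rw [← hF]
  have hle' : ∀ m, F - T (w m) ∈ closure C := by
    intro m
    rw [hF]
    exact hle m
  have hnr1 : ∀ m, δ • F - (T (z m) - T (w m)) ∈ closure C := by
    intro m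
    have h := hT _ (hRN.nr m).1
    rw [map_sub, map_smul, map_sub, ← hF] at h
    exact h
  have hnr2 : ∀ m, δ • F + (T (z m) - T (w m)) ∈ closure C := by
    intro m
    have h := hT _ (hRN.nr m).2
    rw [map_add, map_smul, map_sub, ← hF] at h
    exact h
  have heq : ∀ m, s • act g (T (w m)) = e m • T (z m) := by
    intro m
    rw [← hTh, hRN.eq m, map_smul]
  have hsub : ∀ (a : ℝ) (u : V n), s • act g (a • T p - u) = (a * lam) • T p - s • act g u := by
    intro a u
    rw [CC.act_sub, CC.act_smul, smul_sub, smul_comm, hhz, smul_smul]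
  -- the claim
  have claim : ∀ M : ℝ, 0 < M → M • T p - F ∈ closure C →
      (1 + M / 2) • T p - F ∈ closure C := by
    intro M hM hMf
    have h1 : ∀ m, m ≠ i → (2 * δ * M) • T p - T (w m) ∈ closure C := by
      intro m hm
      have hMw : M • T p - T (w m) ∈ closure C := hC.le_trans (hle' m) hMf
      have hem := hRN.e0 m
      have hhw : (M * lam) • T p - e m • T (z m) ∈ closure C := by
        have h := (hCC.sact_cl_iff hRN.gm hRN.s0).2 hMw
        rwa [hsub, heq] at h
      rcases hFar m hm with ha | hb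
      · have h2 : (δ * M) • T p - T (z m) ∈ closure C := by
          have h3 : (δ * M) • T p - T (z m) = (e m)⁻¹ • ((M * lam) • T p - e m • T (z m)) +
              (δ * M - (e m)⁻¹ * (M * lam)) • T p := by
            rw [smul_sub, smul_smul, smul_smul, inv_mul_cancel₀ hem.ne', one_smul]
            module
          rw [h3]
          refine hC.cl_add (hC.cl_smul hhw (inv_nonneg.2 hem.le)) (hC.cl_smul hz' ?_)
          rw [sub_nonneg, inv_mul_le_iff₀ hem]
          nlinarith
        have h4 : (2 * δ * M) • T p - T (w m) = ((δ * M) • T p - T (z m)) +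
            (δ • F + (T (z m) - T (w m))) + δ • (M • T p - F) := by module
        rw [h4]
        exact hC.cl_add (hC.cl_add h2 (hnr2 m)) (hC.cl_smul hMf hδ.le)
      · have h2 : (e m * ((1 + δ) * M)) • T p - e m • T (z m) ∈ closure C := by
          have h3 : (e m * ((1 + δ) * M)) • T p - e m • T (z m) =
              e m • ((M • T p - T (w m)) + δ • (M • T p - F) +
                (δ • F - (T (z m) - T (w m)))) := by module
          rw [h3]
          exact hC.cl_smul (hC.cl_add (hC.cl_add hMw (hC.cl_smul hMf hδ.le)) (hnr1 m)) hem.le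
        have h4 : (e m * ((1 + δ) * M) / lam) • T p - T (w m) ∈ closure C := by
          apply (hCC.sact_cl_iff hRN.gm hRN.s0).1
          rw [hsub, heq, div_mul_cancel₀ _ hlam.ne']
          exact h2
        have h5 : (2 * δ * M) • T p - T (w m) =
            ((e m * ((1 + δ) * M) / lam) • T p - T (w m)) +
              (2 * δ * M - e m * ((1 + δ) * M) / lam) • T p := by module
        rw [h5]
        refine hC.cl_add h4 (hC.cl_smul hz' ?_)
        rw [sub_nonneg, div_le_iff₀ hlam]
        calc e m * ((1 + δ) * M) ≤ (δ * lam) * (2 * M) := by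
              apply mul_le_mul hb _ (by positivity) (by positivity)
              nlinarith
          _ = 2 * δ * M * lam := by ring
    have h6 : (1 + η * M) • T p - T (w i) ∈ closure C := by
      have h7 := hT _ hNv.2
      rw [map_add, map_smul, map_sub, ← hF] at h7
      have h8 : (1 + η * M) • T p - T (w i) =
          (η • F + (T p - T (w i))) + η • (M • T p - F) := by module
      rw [h8]
      exact hC.cl_add h7 (hC.cl_smul hMf hη)
    have h9 : ∑ m ∈ Finset.univ.erase i, ((2 * δ * M) • T p - T (w m)) ∈ closure C :=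
      hC.cl_sum fun m hm => h1 m (Finset.ne_of_mem_erase hm)
    rw [Finset.sum_sub_distrib, Finset.sum_const, Finset.card_erase_of_mem (Finset.mem_univ i),
      Finset.card_univ, Fintype.card_fin, Nat.add_sub_cancel] at h9
    have h10 : F = T (w i) + ∑ m ∈ Finset.univ.erase i, T (w m) := by
      rw [hF, ← Finset.add_sum_erase _ _ (Finset.mem_univ i), map_add, map_sum]
    have h11 : (1 + M / 2) • T p - F = ((1 + η * M) • T p - T (w i)) +
        (k • (2 * δ * M) • T p - ∑ m ∈ Finset.univ.erase i, T (w m)) +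
        (M / 2 - η * M - (k : ℝ) * (2 * δ * M)) • T p := by
      rw [h10, ← Nat.cast_smul_eq_nsmul ℝ k]
      module
    rw [h11]
    refine hC.cl_add (hC.cl_add h6 h9) (hC.cl_smul hz' ?_)
    have h12 : M / 2 - η * M - (k : ℝ) * (2 * δ * M) =
        M * (1 / 2 - (η + 2 * ((k : ℝ) + 1) * δ)) + M * (2 * δ) := by ring
    rw [h12]
    have h13 : 0 ≤ 1 / 2 - (η + 2 * ((k : ℝ) + 1) * δ) := by linarith
    positivity
  -- the iteration
  obtain ⟨M₀, hM₀, hM₀', -⟩ := hDom (∑ m, w m)
  rw [← hF] at hM₀'
  have hit : ∀ l : ℕ, 0 < 2 + (M₀ - 2) / 2 ^ l ∧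
      (2 + (M₀ - 2) / 2 ^ l) • T p - F ∈ closure C := by
    intro l
    induction l with
    | zero =>
      have h : 2 + (M₀ - 2) / 2 ^ 0 = M₀ := by ring
      rw [h]
      exact ⟨hM₀, hM₀'⟩
    | succ l ih =>
      have h : 2 + (M₀ - 2) / 2 ^ (l + 1) = 1 + (2 + (M₀ - 2) / 2 ^ l) / 2 := by
        rw [pow_succ]
        field_simp
        ring
      rw [h]
      have h' := ih.1
      exact ⟨by linarith, claim _ ih.1 ih.2⟩
  have hlim : Tendsto (fun l : ℕ => (2 + (M₀ - 2) / 2 ^ l) • T p - F) atTop
      (𝓝 ((2 + 0 : ℝ) • T p - F)) := by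
    refine Tendsto.sub_const (Tendsto.smul_const (Tendsto.const_add 2 ?_) _) _
    exact Tendsto.div_atTop tendsto_const_nhds (tendsto_pow_atTop_atTop_of_one_lt one_lt_two)
  rw [add_zero] at hlim
  exact isClosed_closure.mem_of_tendsto hlim (Eventually.of_forall fun l => (hit l).2)

end Pool.Agent.VMX.H94
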